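import Pool.Agent.Helper988.KC.All

set_option autoImplicit false

open MeasureTheory

namespace Pool.Agent.Results.MP_af0770_co.SquarePyramid

/-- Euclidean three-space. -/
abbrev E3 := EuclideanSpace ℝ (Fin 3)

/-- A convex polyhedron: the convex hull of finitely many points, with nonempty interior. -/
def IsConvexPolyhedron (P : Set E3) : Prop :=
  (∃ S : Finset E3, P = convexHull ℝ (S : Set E3)) ∧ (interior P).Nonempty

/-- `A` is the set of vertices of a nonempty face of `P`. Faces are the exposed subsets (the sets
where a linear functional attains its maximum over `P`), vertices are the extreme points. -/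
def IsFaceVertexSet (P A : Set E3) : Prop :=
  ∃ F : Set E3, IsExposed ℝ P F ∧ F.Nonempty ∧ A = F ∩ P.extremePoints ℝ

/-- `P` and `Q` belong to the same combinatorial class: there is a bijection between their vertices
under which a set of vertices of `P` is the vertex set of a face of `P` if and only if its image is
the vertex set of a face of `Q`. -/
def SameClass (P Q : Set E3) : Prop :=
  ∃ f : E3 → E3, Set.BijOn f (P.extremePoints ℝ) (Q.extremePoints ℝ) ∧
    ∀ A : Set E3, A ⊆ P.extremePoints ℝ → (IsFaceVertexSet P A ↔ IsFaceVertexSet Q (f '' A))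

/-- A Koebe polyhedron: a convex polyhedron every edge of which (a face which is a segment with two
different end points `v`, `w`) is tangent to the unit sphere: the edge contains a point of the
sphere, and the line through `v` and `w` does not enter the open unit ball. -/
def IsKoebe (P : Set E3) : Prop :=
  IsConvexPolyhedron P ∧
    ∀ v w : E3, v ≠ w → IsExposed ℝ P (segment ℝ v w) →
      (∃ p ∈ segment ℝ v w, ‖p‖ = 1) ∧ ∀ q ∈ affineSpan ℝ ({v, w} : Set E3), 1 ≤ ‖q‖

/-- The center of mass of the solid `P`: the integral of the position vector over `P`, divided by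
the volume of `P`. -/
noncomputable def cm3 (P : Set E3) : E3 := (volume.real P)⁻¹ • ∫ x in P, x

/-- The square pyramid with apex `(0, 0, 1)` and base vertices `(±1, ±1, 0)`. -/
noncomputable def squarePyramid : Set E3 :=
  convexHull ℝ {!₂[0, 0, 1], !₂[1, 1, 0], !₂[-1, 1, 0], !₂[-1, -1, 0], !₂[1, -1, 0]}

theorem squarePyramid_eq : squarePyramid = Helper988.KC.pyr := by
  unfold squarePyramid Helper988.KC.pyr
  congr 1
  ext x
  simp only [Set.mem_insert_iff, Set.mem_singleton_iff, Set.mem_range]
  constructor
  · rintro (h | h | h | h | h)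
    · exact ⟨0, h.symm⟩
    · exact ⟨1, h.symm⟩
    · exact ⟨2, h.symm⟩
    · exact ⟨3, h.symm⟩
    · exact ⟨4, h.symm⟩
  · rintro ⟨i, rfl⟩
    fin_cases i
    · exact Or.inl rfl
    · exact Or.inr (Or.inl rfl)
    · exact Or.inr (Or.inr (Or.inl rfl))
    · exact Or.inr (Or.inr (Or.inr (Or.inl rfl)))
    · exact Or.inr (Or.inr (Or.inr (Or.inr rfl)))

/-- No Koebe polyhedron of the combinatorial class of the square pyramid has its solid center of
mass at the origin. -/
theorem result : IsConvexPolyhedron squarePyramid ∧
    ∀ Q : Set E3, IsKoebe Q → SameClass squarePyramid Q → cm3 Q ≠ 0 := by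
  rw [squarePyramid_eq]
  exact ⟨Helper988.KC.pyr_poly, fun Q hQ hs => Helper988.KC.main Q hQ.1 hs hQ.2⟩

end Pool.Agent.Results.MP_af0770_co.SquarePyramid
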